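import Pool.Agent.Lib.MP_f11a48_ag.CG.AllL

/-! # MP_f11a48_ag: fibres of families, and their sums, near a limit with few periods -/

set_option autoImplicit false

namespace Pool.Agent.Results.MP_f11a48_ag.AlmostAllFibres

open Polynomial Matrix
open scoped PowerSeries
open Pool.Agent.Lib.MPf11a48.Tors
open Pool.Agent.Lib.MPf11a48.CM hiding OmegaM
open Pool.Agent.Lib.MPf11a48.GF Pool.Agent.Lib.MPf11a48.CG
open Pool.Agent.Lib.MPf11a48.GL2T Pool.Agent.Lib.MPf11a48.CF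
open Pool.Agent.Lib.MPf11a48.GL2 (lie)
open Pool.Agent.Lib.MPf11a48.K3 (cx)

/-- The result for the de Rham-Betti objects `M` over number fields `K` which become, over a number
field `L ⊇ K` of degree `≤ δ`, isomorphic to the object with period matrix `P` (the period matrix of
`M` is `c = P * R` with `R` over `L`; for example quadratic twists): `G c` is contained in the torsor
`Ω_M`, and if the torsor `Ω_S` of a set `S` of classes, with `ψ ∈ S`, is contained in
`ℂˣ G Aut(ℂ/K) c`, then `Ω_M = Ω^dRB_M = Ω_S`. -/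
def GoodO {ι : Type} [Fintype ι] [DecidableEq ι] (G : Subgroup (GL ι ℂ)) (ψ : Matrix ι ι ℚ)
    (P : Matrix ι ι ℂ) (w : ℤ) (δ : ℕ) : Prop :=
  ∀ (K L : IntermediateField ℚ ℂ), K ≤ L → FiniteDimensional ℚ L → Module.finrank ℚ L ≤ δ →
    ∀ (R : Matrix ι ι L) (c : GL ι ℂ), c.1 = P * R.map (fun x => (x : ℂ)) →
      (∀ g ∈ G, g * c ∈ Pool.Agent.Lib.MPf11a48.Tors.OmegaM K c) ∧
      ∀ (ψdR : Matrix ι ι K) (S : Set (TPair K ι)), w ≠ 0 → Polarised w c ψdR ψ →
        (∀ α ∈ S, Fixes c α) → polPair ψdR ψ ∈ S →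
        (∀ f ∈ OmegaS S, ∃ (z : ℂ) (g : GL ι ℂ) (τ : ℂ ≃+* ℂ), g ∈ G ∧ FixesField K τ ∧
          f.1 = z • (g * tw τ c).1) →
        Pool.Agent.Lib.MPf11a48.Tors.OmegaM K c = OmegaS S ∧ OmegaDRB K c = OmegaS S

/-- `C₀ * x ^ (Λ + N) * Y(x)`, where `Λ` is the diagonal matrix with entries `l i / e` and `N` is
nilpotent and commutes with `Λ`, is the period matrix of a family `M_t`, `t = 1 / x`, of
de Rham-Betti objects over `ℚ` in a punctured neighbourhood of `x = 0`; `exp (2 π i (Λ + N))` is the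
local monodromy; the translates of the family under `t ↦ t + m`, `m < k`, are independent (no
condition if `k = 1`); `C₀` is the period matrix of the limit of the family at `x = 0` (of the fibre
at `x = 0`, if `Λ = N = 0`). `G` is a connected semisimple group over `ℚ` of isometries of `ψ` which
is respected by `C₀`: the monodromy group. The limit has few periods compared to `G` and `s`: up to a
scalar, `C₀` is algebraic over a field generated by `r` numbers, and `(s + 1) codim h > r`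
(`> r + 1` if `N ≠ 0`) for all Lie subalgebras `h` of the Lie algebra of `G` (except itself).
Then there is `C` such that for all rational numbers `t = b / a` with `C |a| ^ C ≤ b` there is a set
`E` of at most `s` numbers such that for all different numbers `m i < k` which are not in `E` and all
forms `M` of the direct sum of the fibres at `t + m i` (over number fields `K`, isomorphic to the sum
over an extension of degree `≤ δ` of `ℚ`): `G ^ r c ⊆ Ω_M`, and `Ω_M = Ω^dRB_M = Ω_S`, if `w ≠ 0` and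
`S` is a set of classes over `K`, containing that of the polarisation, with
`Ω_S ⊆ ℂˣ G ^ r Aut(ℂ / K) c`. -/
theorem result (ι : Type) [Fintype ι] [DecidableEq ι] (e : ℕ) (l : ι → ℕ) (T : ℤ[X])
    (B : Matrix ι ι ℤ[X]) (Y : Matrix ι ι ℚ⟦X⟧) (G G₀ : Subgroup (GL ι ℂ)) (ψ₀ ψ N : Matrix ι ι ℚ)
    (C₀ : GL ι ℂ) (w : ℤ) (δ s k : ℕ)
    (hG : IsSS G) (hψ : ∀ g ∈ G, g.1ᵀ * cx ψ * g.1 = cx ψ) (hψ' : ψ.det ≠ 0)
    (hG₀ : ClosedOver ⊥ (G₀ : Set (GL ι ℂ))) (hGG : ∀ g, g ∈ G₀ ↔ C₀ * g * C₀⁻¹ ∈ G)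
    (hY : FamR k e l T B N ψ₀ Y G₀)
    (hC₀ : C₀.1ᵀ * cx ψ * C₀.1 = (2 * Real.pi * Complex.I) ^ w • cx ψ₀)
    (hN : IsNilpotent N) (hN' : cx N ∈ lie (G₀ : Set (GL ι ℂ)))
    (h : FewS G C₀.1 N s) :
    ∃ C : ℕ, ∀ a b : ℤ, a ≠ 0 → (C : ℤ) * |a| ^ C ≤ b →
      ∃ E : Finset ℕ, E.card ≤ s ∧ ∀ r : ℕ, 1 ≤ r →
        ∀ m : Fin r → ℕ, Function.Injective m → (∀ i, m i < k ∧ m i ∉ E) →
          GoodO (bd G r) (blockDiagonal fun _ : Fin r => ψ)
            (blockDiagonal fun i => C₀.1 *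
              NormedSpace.exp (Complex.log ((a : ℂ) / (b + m i * a)) • cx (xp e l N)) *
              vm Y ((a : ℂ) / (b + m i * a))) w δ := by
  obtain ⟨C, hC⟩ := statementL ι e l T B Y G G₀ ψ₀ ψ N C₀ w δ 0 s k hG hψ hψ' hG₀ hGG hY hC₀ hN hN'
    (Or.inr (Or.inr ⟨rfl, Or.inl h⟩))
  refine ⟨C, fun a b ha hab => ?_⟩
  obtain ⟨E, hE, hE'⟩ := hC a b ha hab
  refine ⟨E, hE, fun r hr m hm hm' => ?_⟩
  intro K L hKL hL hδ R c hc
  obtain ⟨h1, h2⟩ := hE' r hr m hm hm' K L hKL hL hδ R c hc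
  exact ⟨fun g hg => (h1 g hg).1, fun ψdR S hw hp hf hS hO =>
    ⟨(h2 ψdR S hw hp hf hS hO).1, (h2 ψdR S hw hp hf hS hO).2.1⟩⟩

end Pool.Agent.Results.MP_f11a48_ag.AlmostAllFibres
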