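import Pool.Agent.Lib.MP_f11a48_ag.SH.RF.Final5
import Pool.Agent.Lib.MP_f11a48_ag.SH.RF.Ex
import Pool.Agent.Lib.MP_f11a48_ag.strict.Flat

/-!
# MP_f11a48_ag: torsors of periods of motives of complex multiplication type

The definitions are in `Pool/Agent/Lib/MP_f11a48_ag/CMM/DefsS.lean` (Mumford-Tate group, CM types,
reflex fields, sub-objects), `CMK/DefsT.lean` (conditions over a field `F`), `SH/RF/DefsR.lean`
(relative flatness, characters of `N`), `U/Statement.lean` and `U/StatementL.lean` (abelian
varieties, endomorphisms), `C/Stmt.lean` (tensor constructions), `helper16/Defs.lean`,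
`helper4/Defs.lean` and `helper92/Stmt.lean` (torsors of periods, classes). The proof uses the period
relations of Shimura, which are proved in `Pool/Agent/Lib/MP_f11a48_ag/SH/`.
-/

set_option autoImplicit false

namespace Pool.Agent.Results.MP_f11a48_ag.CMMotives

open Matrix
open Pool.Agent.Lib.MPf11a48.CM hiding OmegaM GalQ Over
open Pool.Agent.Lib.MPf11a48.GL2T
open Pool.Agent.Lib.MPf11a48.U
open Pool.Agent.Lib.MPf11a48.CMS
open Pool.Agent.Lib.MPf11a48.C (IsRep tpi)
open Pool.Agent.Lib.MPf11a48.Tors (OmegaM ClosedOver)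

/-- Every space `U` of functions which is stable under the automorphisms over `F` is flat
if `E` is an abelian extension of `ℚ` and every automorphism is equal on `E` to an automorphism over
`F` (that is, `E ∩ F = ℚ`). -/
theorem flat_of_abelian {F L : IntermediateField ℚ ℂ} {E : Sub} (hE : FiniteDimensional ℚ E)
    (Γ : Type) [CommGroup Γ] (hΓ : HasGal E Γ) (hF : Full F E) {U : Submodule ℚ (GalQ → ℚ)}
    (hU : ∀ δ, Over F δ → ∀ f ∈ U, (fun γ => f (δ * γ)) ∈ U) : FlatIn F L E U :=
  flatIn_of_flatOver (flatOver_of_abelian hE Γ hΓ hF) hU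

/-- The hypothesis `FlatIn F L E U` holds if `U` is the space of the functions
`γ ↦ ε γ * ∑ i, a i * φ (γ⁻¹ i)`, where the Galois group acts on `{1, …, n}`, and the automorphisms
over `F` act 2-transitively. This is the space of the characters for every simple abelian variety
with complex multiplication by `K₀ E₀`, where `K₀` is an imaginary quadratic field (`ε` is the sign
of the action on `K₀`) and `E₀` is a totally real field of degree `n` whose Galois group is
2-transitive on the `n` embeddings; `φ i = 1` if the extension of the embedding `i` which is the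
fixed embedding on `K₀` is in the CM type, `φ i = -1` otherwise. -/
theorem flat_of_two_transitive {n : ℕ} {F L : IntermediateField ℚ ℂ} {E : Sub}
    (π : GalQ →* Equiv.Perm (Fin n)) (ε : GalQ →* ℤˣ) {φ : Fin n → ℚ} (hφ : ∀ i, φ i = 1 ∨ φ i = -1)
    (h2 : ∀ i j i' j' : Fin n, i ≠ j → i' ≠ j' → ∃ δ, Over F δ ∧ π δ i = i' ∧ π δ j = j') :
    FlatIn F L E (LinearMap.range (permFun π ε φ)) :=
  flatIn_of_perm π ε hφ h2

/-- A space without stable subspaces (for example if the torus is simple) is flat if it
contains a non-zero function with values in `{0, 1, -1}`. -/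
theorem flat_of_simple {F L : IntermediateField ℚ ℂ} {E : Sub}
    {U : Submodule ℚ (GalQ → ℚ)} (hU : ∀ δ, Over F δ → ∀ f ∈ U, (fun γ => f (δ * γ)) ∈ U)
    (hs : ∀ V : Submodule ℚ (GalQ → ℚ), V ≤ U → V ≠ ⊥ →
      (∀ δ, Over F δ → ∀ f ∈ V, (fun γ => f (δ * γ)) ∈ V) → V = U)
    (hf : ∃ f ∈ U, f ≠ 0 ∧ ∀ γ, f γ = 0 ∨ f γ = 1 ∨ f γ = -1) : FlatIn F L E U :=
  flatIn_of_simple hU hs hf

/-- The sum of two flat spaces is flat, if some automorphism over `F` acts on
the first as `1` and on the second as `-1` (for example if the fields are linearly disjoint). -/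
theorem flat_sup {F L : IntermediateField ℚ ℂ} {E : Sub} {U₁ U₂ : Submodule ℚ (GalQ → ℚ)}
    (h₁ : FlatIn F L E U₁) (h₂ : FlatIn F L E U₂)
    (hd : ∃ δ, Over F δ ∧ (∀ f ∈ U₁, ∀ γ, f (δ * γ) = f γ) ∧ ∀ f ∈ U₂, ∀ γ, f (δ * γ) = -f γ) :
    FlatIn F L E (U₁ ⊔ U₂) :=
  flatIn_sup h₁ h₂ hd

/-- Let `A` be a polarised abelian variety over `Qbar`, `c` the period matrix of `h^1(A)`, and
suppose that the simple factors of `A` are of `GL_2`-type or have complex multiplication. Let `E` be
a number field such that the reflex fields of the simple factors with complex multiplication are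
contained in `E`, and all CM types of `E` occur in `A`. Then there is a number field `G` such that
over every field `K` which contains `G` some de Rham-Betti classes of `h^1(A)` over `K` cut out the
torsor of the Mumford-Tate group (`c` is in this torsor, so they are de Rham-Betti classes).

Let `A` be defined over `L ⊆ Qbar`, and `F ⊆ Qbar` a field which is real, or has an automorphism of
`Qbar` over `F` which acts on the centre of the algebra of endomorphisms as the complex conjugation
(for example `F = ℚ`), and `N` an object over `K ⊆ L`, with period matrix `n`, which is over `L` a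
sub-object of a tensor construction in `h^1(A) ⊕ R` and the Tate object `ℚ(-1)`, where the periods
`r` of `R` are algebraic. Suppose that the odd characters of the Mumford-Tate group of `N`, as
functions on the Galois group, are contained in a space `U` which is flat: every non-zero stable
subspace contains a non-zero function with values in `{0, 1, -1}`. Then `N` is stable under the
Mumford-Tate group, the torsor `Ω^dRB_N`, and the torsor `Ω_N` if `K ⊆ F`, contain all conjugates
over `K` of the points of the torsor of the Mumford-Tate group of `N`, and are equal to `Ω_S` for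
every set `S` of de Rham-Betti classes such that `Ω_S` consists of such conjugates. If `K = L`
contains `G` and the periods `r` then `Ω^dRB_N` is the torsor `MT_N c_N` of the Mumford-Tate group
of `N`, and so is `Ω_N` if `K ⊆ F`. -/
theorem result (g N : ℕ) (hg : 0 < g) (A : AbData g N) (hA : A.IsAbVar Qbar) (c : GL (Ix g) ℂ)
    (hc : c.1 = A.per) (hGL : GL2Like c.1 A.psi) (E : Sub) (hE : FiniteDimensional ℚ E)
    (hall : AllTypes A c.1 E) :
    ∃ G : IntermediateField ℚ ℂ, FiniteDimensional ℚ G ∧
    (∀ K : IntermediateField ℚ ℂ, G ≤ K → ∃ S₀ : Set (TPair K (Ix g)),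
      OmegaS S₀ = {f | ∃ y ∈ MT A c, f = y.1 * c}) ∧
    ∀ (L : IntermediateField ℚ ℂ) (_ : L ≤ Qbar) (_ : A.IsAbVar L)
      (F : IntermediateField ℚ ℂ) (_ : F ≤ Qbar) (_ : ConjOver F c.1 A.psi)
      (U : Submodule ℚ (GalQ → ℚ)) (_ : FlatIn F L E U)
      (k : ℕ) (r : GL (Fin k) ℂ) (_ : IsAlg r.1) (K : IntermediateField ℚ ℂ) (_ : K ≤ L)
      (κ ι : Type) [Fintype κ] [DecidableEq κ] [Fintype ι] [DecidableEq ι]
      (T : GL (Ix g ⊕ Fin k) ℂ × ℂˣ → GL κ ℂ) (_ : IsRep T) (n : GL ι ℂ) (iB : Matrix κ ι ℚ)
      (_ : IsSubOver L (T (dsum c r, tpi)) n iB) (_ : CharIn A c U T iB),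
      (∀ y ∈ MT A c, ∃ f : GL ι ℂ, (T (dsum y.1 1, y.2)).1 * iB.map (fun x => (x : ℂ)) =
        iB.map (fun x => (x : ℂ)) * f.1) ∧
      (∀ f ∈ MTSub A c T iB, ∀ h, Conj K (f * n) h →
        h ∈ OmegaDRB K n ∧ (K ≤ F → h ∈ OmegaM K n)) ∧
      (∀ S : Set (TPair K ι), (∀ α ∈ S, Fixes n α) →
        (∀ h ∈ OmegaS S, ∃ f ∈ MTSub A c T iB, Conj K (f * n) h) →
        OmegaDRB K n = OmegaS S ∧ (K ≤ F → OmegaM K n = OmegaS S)) ∧
      (K = L → G ≤ K → (∀ i j, r.1 i j ∈ K) →
        OmegaDRB K n = {h | ∃ f ∈ MTSub A c T iB, h = f * n} ∧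
        (K ≤ F → OmegaM K n = {h | ∃ f ∈ MTSub A c T iB, h = f * n})) :=
  Pool.Agent.Lib.MPf11a48.SH.target5 g N hg A hA c hc hGL E hE hall

end Pool.Agent.Results.MP_f11a48_ag.CMMotives
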