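import Pool.Agent.Lib.MP_f11a48_ag.KF.All
import Pool.Agent.Lib.MP_f11a48_ag.SH.KS.Eq

/-! # MP_f11a48_ag: K3 surfaces, hyper-Kähler varieties and their Kuga-Satake varieties -/

set_option autoImplicit false

namespace Pool.Agent.Results.MP_f11a48_ag.KugaSatake

open Matrix Pool.Agent.Lib.MPf11a48 Pool.Agent.Lib.MPf11a48.K3 Pool.Agent.Lib.MPf11a48.KU
open Pool.Agent.Lib.MPf11a48.KM Pool.Agent.Lib.MPf11a48.KF
open Pool.Agent.Lib.MPf11a48.CM hiding OmegaM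
open Pool.Agent.Lib.MPf11a48.GL2T (IsAlg)
open Pool.Agent.Lib.MPf11a48.CMS (dsum IsSubOver)
open Pool.Agent.Lib.MPf11a48.C (IsRep)
open Pool.Agent.Lib.MPf11a48.U (AbData Ix)

/-- `T = ⊕ T_i` is a sum of orthogonal de Rham-Betti objects over `Qbar` with period matrix `t`,
which acts on `h^1(A) = ⊕ π_i h^1(A)` (`A` an abelian variety over `Qbar` with period matrix `c`)
by Clifford multiplication; `E` is a set of endomorphisms of `T`, and each `T_i` is of orthogonal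
type (orthogonal eigenspaces of dimension `≥ 3`, `≠ 5`) or of unitary type (isotropic eigenspaces,
in dual pairs, of dimension `1` or even); `GoodF F` (in `GroupF F`) excludes coincidences of the
dimensions of eigenspaces in different `T_i`, and contains hypotheses on the action of the
automorphisms of `ℂ` over `F` on the eigenspaces. `𝓖` is the group of `h^1(A)`, `T` and the Tate
object. The theorem determines the torsors of all objects `M` over `K` which are over `Qbar`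
sub-objects of objects obtained from `h^1(A) ⊕ T ⊕ R` and the Tate object by tensor operations,
where `R` has algebraic periods; they are equal to the torsor of the group of `M` if all the data
are defined over `K`, in particular for `K = Qbar`. -/
theorem result (K : IntermediateField ℚ ℂ) (hK : K ≤ Qbar) (g N n k : ℕ) (I : Type) [Fintype I]
    [DecidableEq I] (A : AbData g N) (c : GL (Ix g) ℂ) (t : GL (Fin n) ℂ) (r : GL (Fin k) ℂ)
    (qdR : Matrix (Fin n) (Fin n) ℂ) (qB : Matrix (Fin n) (Fin n) ℚ)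
    (B : Fin n → Matrix (Ix g) (Ix g) ℚ) (E : Set (Matrix (Fin n) (Fin n) ℚ)) (ix : Fin n → I)
    (π : I → Matrix (Ix g) (Ix g) ℚ) (𝓖 : Set (Grp3 g n))
    (hKS : KSFam A c t qdR qB B E ix π) (hE : EndFull c qB B E)
    (hG : GroupF ⊥ A c qB B E ix 𝓖)
    (hr : IsAlg r.1) (ν ι : Type) [Fintype ν] [DecidableEq ν] [Fintype ι] [DecidableEq ι]
    (Θ : GL ((Ix g ⊕ Fin n) ⊕ Fin k) ℂ × ℂˣ → GL ν ℂ) (hΘ : IsRep Θ) (M : GL ι ℂ)
    (iB : Matrix ν ι ℚ) (hM : IsSubOver Qbar (Θ (dsum (dsum c t) r, tpi)) M iB) :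
    (∀ y ∈ 𝓖, ∃ f : GL ι ℂ, (Θ (dsum (dsum y.1 y.2.1) 1, y.2.2)).1 * cx iB = cx iB * f.1) ∧
    (∀ f ∈ SubGroup 𝓖 Θ iB, ∀ h, GL2T.Conj K (f * M) h →
      h ∈ OmegaDRB K M ∧ (GroupF K A c qB B E ix 𝓖 → h ∈ Tors.OmegaM K M)) ∧
    (∀ S : Set (TPair K ι), (∀ α ∈ S, Fixes M α) →
      (∀ h ∈ OmegaS S, ∃ f ∈ SubGroup 𝓖 Θ iB, GL2T.Conj K (f * M) h) →
      OmegaDRB K M = OmegaS S ∧
        (GroupF K A c qB B E ix 𝓖 → Tors.OmegaM K M = OmegaS S)) ∧
    ((K = Qbar ∨ KSOver K A c t qdR B E ∧ (∀ i j, r.1 i j ∈ K) ∧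
        IsSubOver K (Θ (dsum (dsum c t) r, tpi)) M iB) →
      OmegaDRB K M = {h | ∃ f ∈ SubGroup 𝓖 Θ iB, h = f * M} ∧
      (GroupF K A c qB B E ix 𝓖 →
        Tors.OmegaM K M = {h | ∃ f ∈ SubGroup 𝓖 Θ iB, h = f * M})) := by
  obtain ⟨h1, h2, h3⟩ := mainKM g N n I A c t qB B qdR E ix π 𝓖 hKS hE (groupM_of hG) k r hr K
    hK ν ι Θ hΘ M iB hM
  have h4 : GroupF K A c qB B E ix 𝓖 → ∀ f ∈ SubGroup 𝓖 Θ iB, ∀ h, GL2T.Conj K (f * M) h →
      h ∈ Tors.OmegaM K M := by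
    intro hG' f hf h hh T hT hMT
    exact mainKF K hK g N n I A c t qB B qdR E ix π 𝓖 hKS hE hG' k r hr K hK ν ι Θ hΘ M iB hM T
      hT hMT (Tors.closedOver_grp hT) f hf h hh
  refine ⟨h1, fun f hf h hh => ⟨h2 f hf h hh, fun hG' => h4 hG' f hf h hh⟩,
    fun S hS hSW => ?_, fun hK' => ?_⟩
  · have h5 := (h3 S hS hSW).1
    refine ⟨h5, fun hG' => Set.Subset.antisymm ?_ ?_⟩
    · rw [← h5]
      exact Tors.OmegaM_subset_OmegaDRB K M
    · intro h hh
      obtain ⟨f, hf, hfh⟩ := hSW h hh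
      exact h4 hG' f hf h hfh
  · have hK'' : KSOver K A c t qdR B E ∧ (∀ i j, r.1 i j ∈ K) ∧
        IsSubOver K (Θ (dsum (dsum c t) r, tpi)) M iB := by
      rcases hK' with rfl | h
      · exact ⟨KSOver.of hKS, hr, hM⟩
      · exact h
    obtain ⟨hO, hr', hM'⟩ := hK''
    have hrefl : ∀ h : GL ι ℂ, GL2T.Conj K h h := fun h =>
      ⟨RingEquiv.refl ℂ, fun _ _ => rfl, fun _ _ => rfl⟩
    have key : ∀ h ∈ OmegaDRB K M, ∃ f ∈ SubGroup 𝓖 Θ iB, h = f * M := by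
      obtain ⟨R, U, iR, iR', iU, iU', m, P, lr, m', P', Q', lu, ox, ou, hS, hg, rfl⟩ := hG
      intro h hh
      let D : Dat := ⟨g, N, n, I, R, U, A, c, t, qdR, qB, B, E, ix, π, m, P, lr, m', P', Q', lu, ox,
        ou, hKS, hE, hS, hg.good⟩
      exact SH.KSEq.ks_eq D hK hO hr' hΘ hM' h1 hh
    refine ⟨Set.Subset.antisymm key ?_, fun hG' => Set.Subset.antisymm
      (fun h hh => key h (Tors.OmegaM_subset_OmegaDRB K M hh)) ?_⟩
    · rintro _ ⟨f, hf, rfl⟩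
      exact h2 f hf _ (hrefl _)
    · rintro _ ⟨f, hf, rfl⟩
      exact h4 hG' f hf _ (hrefl _)

end Pool.Agent.Results.MP_f11a48_ag.KugaSatake
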