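import Pool.Agent.Lib.MP_f11a48_ag.SH.FA.LefEq

/-!
# MP_f11a48_ag: torsors of periods of motives of Lefschetz type

The definitions are in `Pool/Agent/Lib/MP_f11a48_ag/CMM/DefsS.lean` (Mumford-Tate group,
sub-objects), `CMK/DefsT.lean` (conditions over a field `F`), `U/Statement.lean` and
`U/StatementL.lean` (abelian varieties, endomorphisms), `C/Stmt.lean` (tensor constructions),
`helper16/Defs.lean`, `helper4/Defs.lean` and `helper92/Stmt.lean` (torsors of periods, classes).
-/

set_option autoImplicit false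

namespace Pool.Agent.Results.MP_f11a48_ag.LefschetzType

open Matrix
open Pool.Agent.Lib.MPf11a48.CM hiding OmegaM
open Pool.Agent.Lib.MPf11a48.GL2T
open Pool.Agent.Lib.MPf11a48.U
open Pool.Agent.Lib.MPf11a48.CMS
open Pool.Agent.Lib.MPf11a48.C (IsRep tpi)
open Pool.Agent.Lib.MPf11a48.Tors (OmegaM)

/-- Let `A` be a polarised abelian variety over `L ⊆ Qbar`, `c` the period matrix of `h^1(A)`, and
suppose that the simple factors of `A` over `Qbar` are of `GL_2`-type (real or quaternion
multiplication) or have complex multiplication. Let `F ⊆ Qbar` be a field such that the centre of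
the algebra of endomorphisms is separated over `F`, and which is real, or has an automorphism of
`Qbar` over `F` which acts on the centre as the complex conjugation (for example `F = Qbar`, if no
simple factor has complex multiplication).

Let `N` be an object over `K ⊆ L`, with period matrix `n`, which is over `L` a sub-object of a tensor
construction in `h^1(A) ⊕ R` and the Tate object `ℚ(-1)`, where the periods `r` of `R` are algebraic.
Then `N` is stable under the Mumford-Tate group, the torsor `Ω^dRB_N`, and the torsor `Ω_N` if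
`K ⊆ F`, contain all conjugates over `K` of the points of the torsor of the Mumford-Tate group of
`N`, and are equal to `Ω_S` for every set `S` of de Rham-Betti classes such that `Ω_S` consists of
such conjugates. If `K = L` and the periods `r` are in `K` then `Ω^dRB_N`, and `Ω_N` if `K ⊆ F`, are
equal to the set of these conjugates. For `N = h^1(A)` and `K = L` the torsors are equal to `Ω_S` for
every set `S` of de Rham-Betti classes over `L` which contains those given by the polarisation and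
those in the tensor powers of the algebra of endomorphisms of `A`. -/
theorem result (g N : ℕ) (hg : 0 < g) (A : AbData g N) (L : IntermediateField ℚ ℂ) (hL : L ≤ Qbar)
    (hA : A.IsAbVar L) (c : GL (Ix g) ℂ) (hc : c.1 = A.per) (hGL : GL2Like c.1 A.psi)
    (F : IntermediateField ℚ ℂ) (hF : F ≤ Qbar) (hconj : ConjOver F c.1 A.psi)
    (hsep : SepOver F c.1 A.psi) :
    (∀ (k : ℕ) (r : GL (Fin k) ℂ), IsAlg r.1 → ∀ K : IntermediateField ℚ ℂ, K ≤ L →
    ∀ (κ ι : Type) [Fintype κ] [DecidableEq κ] [Fintype ι] [DecidableEq ι]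
      (T : GL (Ix g ⊕ Fin k) ℂ × ℂˣ → GL κ ℂ), IsRep T → ∀ (n : GL ι ℂ) (iB : Matrix κ ι ℚ),
    IsSubOver L (T (dsum c r, tpi)) n iB →
      (∀ y ∈ MT A c, ∃ f : GL ι ℂ, (T (dsum y.1 1, y.2)).1 * iB.map (fun x => (x : ℂ)) =
        iB.map (fun x => (x : ℂ)) * f.1) ∧
      (∀ f ∈ MTSub A c T iB, ∀ h, Conj K (f * n) h →
        h ∈ OmegaDRB K n ∧ (K ≤ F → h ∈ OmegaM K n)) ∧
      (∀ S : Set (TPair K ι), (∀ α ∈ S, Fixes n α) →
        (∀ h ∈ OmegaS S, ∃ f ∈ MTSub A c T iB, Conj K (f * n) h) →
        OmegaDRB K n = OmegaS S ∧ (K ≤ F → OmegaM K n = OmegaS S)) ∧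
      (K = L → (∀ i j, r.1 i j ∈ K) →
        OmegaDRB K n = {h | ∃ f ∈ MTSub A c T iB, Conj K (f * n) h} ∧
        (K ≤ F → OmegaM K n = {h | ∃ f ∈ MTSub A c T iB, Conj K (f * n) h}))) ∧
    ∀ S : Set (TPair L (Ix g)), (∀ α ∈ S, Fixes c α) → Basic A c L ⊆ S →
      OmegaDRB L c = OmegaS S ∧ (L ≤ F → OmegaM L c = OmegaS S) := by
  obtain ⟨-, h⟩ := mainK g N hg A L hL hA c hc
  obtain ⟨h1, h2⟩ := h hGL F hF hconj
  refine ⟨fun k r hr K hK κ ι _ _ _ _ T hT n iB hn => ?_, h2 hsep⟩
  obtain ⟨a1, a2, a3⟩ := h1 (Or.inl hsep) k r hr K hK κ ι T hT n iB hn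
  refine ⟨a1, a2, a3, fun hKL hrK => ?_⟩
  subst hKL
  have key : ∀ x ∈ OmegaDRB K n, ∃ f ∈ MTSub A c T iB, Conj K (f * n) x := fun x hx =>
    Pool.Agent.Lib.MPf11a48.SH.lef_eq hg hL hA hc hGL hsep hrK hT hn a1 hx
  refine ⟨Set.Subset.antisymm key ?_, fun hKF => Set.Subset.antisymm
    (fun x hx => key x (Pool.Agent.Lib.MPf11a48.Tors.OmegaM_subset_OmegaDRB _ _ hx)) ?_⟩
  · rintro x ⟨f, hf, hx⟩
    exact (a2 f hf x hx).1
  · rintro x ⟨f, hf, hx⟩
    exact (a2 f hf x hx).2 hKF

end Pool.Agent.Results.MP_f11a48_ag.LefschetzType
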